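import Pool.Agent.H353R3.Fl6

/-!
# The flag condition for Slip varieties of smooth projective toric varieties

`X : Fan n ι` is the fan of a smooth projective toric variety of dimension `n` with rays indexed by
`ι`. Its Cox ring is `S = ℂ[xᵢ : i ∈ ι]`, graded by `X.Pic` with `xᵢ` of degree `X.deg i`, and `X` is
the quotient of `X.locus = ℂ^ι ∖ V(B)` by the group `Hom(X.Pic, ℂˣ)`.

`slip X.deg X.locus k` is the set of the (closed) points of the Slip variety: the homogeneous ideals
with Hilbert function `h_k(D) = min(k, dim S_D)` that are limits of ideals of sets of `k` distinct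
points of `X` with this Hilbert function. The limits are taken in the product of the Grassmannians
of the spaces `S_D`; as these ideals of points form a constructible set of the (projective)
multigraded Hilbert scheme, its Zariski closure consists of these limits.

The theorem: every such variety satisfies the flag condition.
-/

open MvPolynomial Pool.Agent.H353R3.Fl

namespace Pool.Agent.Results.MP_222440_ag.FlagCondition

theorem result (n : ℕ) (ι : Type) [Fintype ι] [DecidableEq ι] (X : Fan n ι) (r : ℕ) (hr : 1 ≤ r)
    (I : Ideal (MvPolynomial ι ℂ)) (hI : I ∈ slip X.deg X.locus r) :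
    ∃ J : ℕ → Ideal (MvPolynomial ι ℂ), J r = I ∧ J 0 = ⊤ ∧ (∀ k < r, J (k + 1) ≤ J k) ∧
      ∀ k ≤ r, J k ∈ slip X.deg X.locus k :=
  X.flag_condition hr I hI

end Pool.Agent.Results.MP_222440_ag.FlagCondition
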